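import Mathlib
import Pool.Agent.Q43.RP.Bd
import Pool.Agent.TH170.TT.Small

/-!
# No exotic Tate classes up to an almost linear codimension, for almost all abelian varieties of CM
type and all products of their powers

Let `E i` be finitely many CM fields of degrees at least `2 g` and of total degree `2 N`; nothing is
assumed about their Galois groups, and they may be isomorphic. Let `A` be an abelian variety over the
algebraic closure of a field finitely generated over `ℚ` which is isogenous to a product
`X = ∏ j, A (t j)` of copies (in any number) of the abelian varieties `A i` of CM type
`(E i, Φ i)`; it has a model over a number field. Let `V = V_ℓ(A) = ℚ_ℓ ⊗ H_1(X, ℚ)` be the rational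
Tate module, with the action `ρ` of the Galois group `G` and the cyclotomic character `χ`, and let
`γ ∈ G` be the Frobenius element of one place of good reduction above a prime number `p ≠ ℓ` that
splits completely in the fields `E i`. It acts by the multiplication by `π ∈ ∏ E (t j)`, with absolute
values given by the theorem of Shimura and Taniyama (`IsFrobeniusAt`).

`TateUpTo Φ k` says: for all products `X` of copies of the `A i`, all such data, and all `m` with
`2 m ≤ k`, the Tate classes in `H^{2m}(A, ℚ_ℓ(m))` (fixed by an open subgroup, that is, by a subgroup
of finite index of `G`) are linear combinations, with coefficients in `ℚ_ℓ`, of products of `m`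
Hodge classes of degree two, that is, of classes of divisors. So there are no exotic Tate
classes on `A` in codimension at most `k / 2`, and all Tate classes in these codimensions are
algebraic.

1. If `10 ^ 13 k (log (6 N)) ^ 4 ≤ g`, then all but `2 ^ N exp (- g / (10 ^ 13 k log (6 N)))` of the
   `2 ^ N` families of CM types of the `E i` satisfy `TateUpTo Φ k`.
2. In particular for all large `g`, every CM field `E` of degree `2 g` and all but
   `2 ^ g exp (- (log g) ^ 3)` of its `2 ^ g` CM types, there are no exotic Tate classes in
   codimension at most `k / 2`, `k = ⌊g / (log g) ^ 5⌋`, on any power of the abelian varieties of this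
   type.

The starting result `NoExoticBelowRoot` of this problem has `k = ⌊c √g⌋`, `c < 1 / 2`. The number of the
words of length `k` in the embeddings is about `(2 N) ^ k`, and only about `g / k` translates of a word
can be made independent; so a union bound cannot pass `k ^ 2 = g`. The proof replaces it by a
restricted isometry property: the sums of the squares of the signs over all conjugates of a word are,
for all words of length at most `k` at the same time, close to the number of the pairs of equal
letters. These are the suprema of chaos processes studied for random partial convolutions (Krahmer,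
Mendelson, Rauhut, for cyclic groups); they are estimated by decoupling and a chaining argument, where
the nets of words are found by successive halving with the Khinchin inequality for operators. All this
is proved here for arbitrary finite groups acting on the set of the embeddings.
-/

set_option autoImplicit false

namespace Pool.Agent.Results.MP_640417_ag.AlmostLinearCodimension

open NumberField Module Pool.Agent.H204R3.CM Pool.Agent.TH170.TT

/-- **No exotic Tate classes up to an almost linear codimension for almost all families of CM types.** -/
theorem result :
    (∀ {ι : Type} [Fintype ι] [Nonempty ι] (E : ι → Type) [∀ i, Field (E i)]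
      [∀ i, NumberField (E i)] [∀ i, IsCMField (E i)] (g N : ℕ), (∀ i, 2 * g ≤ finrank ℚ (E i)) →
      ∑ i, finrank ℚ (E i) = 2 * N →
      {Φ : ∀ i, Set (E i →+* ℂ) | ∀ i, IsCMType (Φ i)}.ncard = 2 ^ N ∧
      ∀ k : ℕ, 0 < k → 10 ^ 13 * (k * Real.log (6 * N) ^ 4) ≤ g →
        ({Φ : ∀ i, Set (E i →+* ℂ) | (∀ i, IsCMType (Φ i)) ∧ ¬ TateUpTo Φ k}.ncard : ℝ) ≤
          2 ^ N * Real.exp (-(g / (10 ^ 13 * (k * Real.log (6 * N)))))) ∧
    ∃ g₀ : ℕ, ∀ g ≥ g₀, ∀ (E : Type) [Field E] [NumberField E] [IsCMField E],
      finrank ℚ E = 2 * g →
      ({Φ : Set (E →+* ℂ) | IsCMType Φ ∧
        ¬ TateUpTo (fun _ : Unit => Φ) ⌊g / Real.log g ^ 5⌋₊}.ncard : ℝ) ≤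
        2 ^ g * Real.exp (-(Real.log g ^ 3)) :=
  Pool.Agent.Q43.RP.ncard_near (fun Φ k => TateUpTo Φ k)
    (fun _ _ _ h => tateUpTo_of_levelFree h)

end Pool.Agent.Results.MP_640417_ag.AlmostLinearCodimension
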