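import Mathlib
import Pool.Agent.Q60.D3T.Tate
import Pool.Agent.Q60.D3H.FineG

/-!
# Tate classes on products of abelian varieties of CM type of prime dimension or of generic CM type

Let `X` be (up to isogeny) a product of abelian varieties `A i` with complex multiplication by CM fields
`E i` with `[E i : ℚ] = 2 dim (A i)`, over a finitely generated field of characteristic zero, such that
each `E i`

* has degree at most six, or
* has degree twice a prime number, or
* the CM type is nondegenerate and the maximal real subfield `F i` of `E i` has no subfields except `ℚ`
  and itself, or
* the CM type is separated: for two embeddings `φ`, `ψ` of `E i` which are different on `F i` there is an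
  automorphism of `ℂ` which is the identity on all conjugates of `F i` and on `φ (E i)`, but not on
  `ψ (E i)` (for `E i = F i (√-α)`: the product of two different conjugates of `α` is not a square in the
  Galois closure of `F i`; this holds if the Galois group of `E i` is as large as possible).

Suppose that the CM types of two factors are isomorphic if their CM fields have the same Galois closure
and one of them has degree larger than six, and the corresponding condition for any three factors whose
CM fields have degree four or six. If `E i` has degree larger than six, its CM type is not separated and
`K ⊂ E i` is an imaginary quadratic field, the larger one of the two numbers of elements of the CM type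
with a given restriction to `K` is in the set `𝒟`, which contains `2`.

Then the Tate classes on `X` (and on all powers of `X`, as the factors may be repeated) in all degrees
and for all primes `ℓ` are linear combinations, with coefficients in `ℚ_ℓ`, of rational classes which
are obtained from the classes of divisors and Weil classes of imaginary quadratic fields `K` on abelian
varieties of the dimensions `2 m`, `m ∈ 𝒟`, containing an elliptic curve with multiplication by `K`
stable under `K`, by linear combinations, cup products, pull-backs and push-forwards. For
`𝒟 = {2, 3}` these classes are algebraic by theorems of Markman (Weil classes on abelian fourfolds and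
on abelian sixfolds of split Weil type), and the Tate conjecture holds for `X`: for instance for all
products of powers of abelian varieties of CM type of prime dimension without imaginary quadratic
multiplication with different Galois closures.

The Galois representation on the Tate module is used only through one element which acts as a Frobenius
element of a place of degree one above a prime number that splits completely in the CM fields, with
the absolute values given by the formula of Shimura and Taniyama.
-/

namespace Pool.Agent.Results.MP_640417_ag.CMPrimeDimension

open Pool.Agent.H204R3.CM Pool.Agent.W547.KB Pool.Agent.W530.NF
open Pool.Agent.W547.LN (IsFrobeniusAt IsTateClass)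
open Pool.Agent.Q60.D3H (GenT)
open Pool.Agent.Q60.D3T (IsGenerated)

/-- Tate classes on abelian varieties of CM type. -/
theorem result (𝒟 : Set ℕ) (hD : 2 ∈ 𝒟) (X : CMAV) (hX : GenT 𝒟 X) {K V G : Type} [Field K]
    [CharZero K] [AddCommGroup V] [Module K V] [Group G] (C : Comparison X K V)
    (ρ : Representation K G V) (χ : G →* K) (w : AbsoluteValue ℂ ℝ) (q : ℕ) (π : X.H1)
    (γ : G) (h : IsFrobeniusAt X C ρ χ w q π γ) {m : ℕ}
    (f : V [⋀^Fin (2 * m)]→ₗ[K] K) (hf : IsTateClass ρ χ f) : IsGenerated 𝒟 C f :=
  Pool.Agent.Q60.D3T.tate_numberField X (fun f hf => Pool.Agent.Q60.D3H.cmG hD X hX f hf) C ρ χ w q
    π γ h f hf

end Pool.Agent.Results.MP_640417_ag.CMPrimeDimension
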