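import Pool.Agent.Q28.KS.Tate
import Pool.Agent.Q28.KS.Lattice

/-!
# The Tate conjecture for all powers of K3 surfaces of Picard number at least 18

Let `Y` be a K3 surface over the algebraic closure of a finitely generated field of characteristic
zero. By the Mumford-Tate conjecture for K3 surfaces (Tankeev, André) the Tate classes on the powers
of `Y` are the combinations of the Hodge classes on the powers of the complex K3 surfaces `X`
obtained from `Y`. Floccari and Varesco proved the Hodge conjecture for all powers of the K3 surfaces
`S_K` attached to the projective sixfolds `K` of generalized Kummer type. By the theorem of Buskin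
and Huybrechts (isogenies of K3 surfaces are algebraic) the same holds for all K3 surfaces `X` whose
transcendental part `T(X)` over the rational numbers embeds in `H²(K, ℚ)(1/2) = U³ ⊕ ⟨-1⟩`, a form in
seven variables; the general ones have Picard number 16. By Witt's theorem and
`H²(X, ℚ) = U³ ⊕ E₈(-1)² = U³ ⊕ ⟨-1⟩¹⁶` this condition means that `X` has 15 orthogonal rational
divisor classes with self-intersection `-1`. We show that every K3 surface of Picard number at least
18 has 15 such classes: they are found one by one, the last one in a form in four variables, by
Meyer's theorem, which is proved here for all indefinite forms in five variables. Hence the Tate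
conjecture holds for all powers of all these surfaces. For Picard number 17 there are local
obstructions; there the last self-intersection number can be chosen as minus a sum of two squares.
-/

universe u v

namespace Pool.Agent.Results.MP_640417_ag.PowersOfKThreeSurfaces

open Pool.Agent.Q28.KI Pool.Agent.Q28.KS Module

/-- **The Tate conjecture for powers of K3 surfaces of large Picard number.**

1. Without hypotheses: let `N` be a subspace of `V = (U³ ⊕ E₈(-1)²) ⊗ ℚ` on which the form is
  nondegenerate, and negative on the nonzero vectors orthogonal to some vector `h` (`Good N`; the
  rational divisor classes of a projective K3 surface form such a subspace). If `dim N ≥ 18` then `N`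
  contains 15 orthogonal vectors of square `-1`. If `dim N ≥ 17` it contains 15 orthogonal vectors with
  the squares `-1` (14 times) and `-(x² + y²) ≠ 0` for some `x, y`.

Let `T` be the complex projective K3 surfaces with their periods (known facts: `T.Facts`), and `A` the
K3 surfaces over algebraic closures of finitely generated fields of characteristic zero (`A.Facts`:
the Mumford-Tate conjecture for K3 surfaces, known).

2. For every such surface `Y` of Picard number at least 18, all `n` and all primes `l`, all `l`-adic
  Tate classes on `Y^n` are algebraic.
3. If the Hodge conjecture holds for all powers of the complex K3 surfaces with 15 orthogonal rational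
  divisor classes of self-intersection `-1` (14 times) and `-(x² + y²) ≠ 0`, then the same is true
  for Picard number at least 17. -/
theorem result :
    ((∀ N : Submodule ℚ V, Good N → 18 ≤ finrank ℚ N →
        ∃ v : Fin 15 → V, (∀ i, v i ∈ N) ∧ IsOrthogonal v (fun _ => -1)) ∧
      ∀ N : Submodule ℚ V, Good N → 17 ≤ finrank ℚ N →
        ∃ (v : Fin 15 → V) (x y : ℚ), x ^ 2 + y ^ 2 ≠ 0 ∧ (∀ i, v i ∈ N) ∧
          IsOrthogonal v (squares 14 x y)) ∧
    ∀ T : K3Powers.{u}, T.Facts → ∀ A : ArithmeticK3.{u, v} T, A.Facts →
      (∀ Y : A.Surf, A.PicardAtLeast Y 18 → ∀ n l : ℕ, l.Prime → A.TC Y n l) ∧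
      (T.WeilType → ∀ Y : A.Surf, A.PicardAtLeast Y 17 → ∀ n l : ℕ, l.Prime → A.TC Y n l) :=
  ⟨⟨fun _ => lattice_eighteen, fun _ => lattice_seventeen⟩, fun _ hT A hA =>
    ⟨fun Y hY n l hl => tate_of_eighteen hT A hA Y hY n l hl,
      fun hW Y hY n l hl => tate_of_seventeen hT hW A hA Y hY n l hl⟩⟩

end Pool.Agent.Results.MP_640417_ag.PowersOfKThreeSurfaces
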