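import Pool.Agent.Q10.JI.Art

/-!
# The Tate conjecture in one codimension: from one prime to another

Let `X` be a smooth projective variety over an algebraic closure of a finitely generated field of
characteristic zero, and let `ℓ` and `ℓ'` be prime numbers. The number of `ℓ'`-adic Tate classes of
codimension `j` on `X` is at most the order of vanishing at `T = 1` of the polynomial
`∑ t_n (-T) ^ n`, where `t_n` is the number of `ℓ`-adic Tate classes in `Λ ^ n H^(2 j)(X)`. So if
there are no exotic `ℓ`-adic alternating Tate classes of odd degree, the Tate conjecture for `X` in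
codimension `j` passes from the prime `ℓ` to all other primes.
-/

open CategoryTheory AlgebraicGeometry

universe u w

namespace Pool.Agent.Results.MP_640417_ag.TransferBetweenPrimes

open Pool.Agent.H914
open Pool.Agent.Q55 (GaloisAction)
open Pool.Agent.Q50.MTC (IsLadic)
open Pool.Agent.Q50.LI (Artin tateDim)
open Pool.Agent.Q10.JT (altPoly SemisimplePowers NoOddExotic)
open Pool.Agent.Q10.JI (CompatibleSystem TateIn)

variable {k : Type u} [Field k] {𝒱 : VarClass k} {ops : CycleOps 𝒱}
  {W E E' : WeilCohomology.{u, 0} ops} [Algebra W.K E.K] [Algebra W.K E'.K] {Γ : Type w} [Group Γ]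
  [TopologicalSpace Γ]

/-- **Transfer between primes in one codimension.** Let `W` be the cohomology with rational
coefficients, `E` the `ℓ`-adic and `E'` the `ℓ'`-adic cohomology, with Artin's comparison maps `A`,
`A'` and with the actions `G`, `G'` of the Galois group `Γ`. Let `X` be a variety and `j` a natural
number. Suppose that the actions on the cohomology of `X` are `ℓ`-adic and `ℓ'`-adic (`hX`, `hX'`),
that the elements `γ` whose characteristic polynomials on the two cohomology groups in degree `2 j`
are rational and equal are dense (`hc`; these are the Frobenius elements), and that the action on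
the `ℓ`-adic cohomology `H^(2 j n)(X ^ n)` is semisimple for `1 ≤ n ≤ b`, where `b` is the dimension
of `H^(2 j)(X)` (`hss`). No semisimplicity is assumed for `ℓ'`. Let `t` and `t'` be the numbers of
linearly independent `ℓ`-adic and `ℓ'`-adic Tate classes of codimension `j` on `X`, and let `P` be
the polynomial `∑ t_n (-T) ^ n`, where `t_n` is the dimension of the space of the `ℓ`-adic Tate
classes in `Λ ^ n H^(2 j)(X)`, a part of the cohomology of `X ^ n`. Then:

(1) `(1 - T) ^ t'` divides `P`;

(2) if all `ℓ`-adic Tate classes of codimension `j` on `X` are algebraic, and `P` is not divisible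
by `(1 - T) ^ (t + 1)`, then all `ℓ'`-adic Tate classes of codimension `j` on `X` are algebraic;

(3) `P` is not divisible by `(1 - T) ^ (t + 1)` if for all odd numbers `3 ≤ n ≤ b` all `ℓ`-adic Tate
classes in `Λ ^ n H^(2 j)(X)` are linear combinations of alternating products of Tate classes
on `X`. -/
theorem result {G : GaloisAction E Γ} {G' : GaloisAction E' Γ} (A : Artin W E) (A' : Artin W E')
    {ℓ ℓ' : ℕ} [Fact ℓ.Prime] [Fact ℓ'.Prime] (e : E.K ≃+* ℚ_[ℓ]) (e' : E'.K ≃+* ℚ_[ℓ'])
    (X : 𝒱.Obj) (j : ℕ) (hX : IsLadic (G.ρ X) G.χ e) (hX' : IsLadic (G'.ρ X) G'.χ e')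
    (hc : CompatibleSystem G G' X j) (hss : SemisimplePowers G X j) :
    (1 - Polynomial.X) ^ tateDim G' X j ∣ altPoly G X j ∧
    (TateIn G X j → ¬ (1 - Polynomial.X) ^ (tateDim G X j + 1) ∣ altPoly G X j →
      TateIn G' X j) ∧
    (NoOddExotic G X j → ¬ (1 - Polynomial.X) ^ (tateDim G X j + 1) ∣ altPoly G X j) :=
  ⟨Pool.Agent.Q10.JI.dvd_other hX hX' hss hc,
    fun h hn => Pool.Agent.Q10.JI.transfer A A'
      (Pool.Agent.Q10.JI.dvd_other hX hX' hss hc) hn h,
    fun h => Pool.Agent.Q10.JI.not_dvd_of_noExotic h⟩

end Pool.Agent.Results.MP_640417_ag.TransferBetweenPrimes
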